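import Mathlib

set_option autoImplicit false
set_option linter.unusedSimpArgs false
set_option linter.unusedVariables false
set_option linter.unusedSectionVars false

namespace Pool.Agent.Results.MP_7616b3_co.Main

open SimpleGraph Filter

/-- The edge label `|f u - f v|`. -/
def ediff {V : Type} (f : V → ℕ) : Sym2 V → ℕ :=
  Sym2.lift ⟨fun u v => Nat.dist (f u) (f v), fun _ _ => Nat.dist_comm _ _⟩

/-- `G` has a `k`-graceful numbering. -/
def KGraceful {V : Type} (G : SimpleGraph V) (k : ℕ) : Prop :=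
  ∃ f : V → ℕ, Function.Injective f ∧ Set.BijOn (ediff f) G.edgeSet (Set.Ici k)

section greedy
variable {V : Type} [DecidableEq V] (G : SimpleGraph V) (k : ℕ) (OK : V → V → V → V → Prop)

def Rl (L : Finset V) (f : V → ℕ) (d : ℕ) : Prop := ∃ c ∈ L, ∃ e ∈ L, G.Adj c e ∧ f c + d = f e

structure Good (L : Finset V) (f : V → ℕ) : Prop where
  inj : ∀ a ∈ L, ∀ b ∈ L, f a = f b → a = b
  ge : ∀ a ∈ L, ∀ b ∈ L, G.Adj a b → f a + k ≤ f b ∨ f b + k ≤ f a
  dis : ∀ a ∈ L, ∀ b ∈ L, ∀ c ∈ L, ∀ e ∈ L, G.Adj a b → G.Adj c e → f a < f b → f c < f e →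
    f b + f c = f e + f a → a = c ∧ b = e
  ok : ∀ a ∈ L, ∀ b ∈ L, ∀ c ∈ L, ∀ e ∈ L, f a < f b → f c < f e → f b + f c = f e + f a →
    Rl G L f (f b - f a) ∨ OK a b c e
  two : ∀ a ∈ L, ∀ b ∈ L, ∀ c ∈ L, ∀ e ∈ L, ∀ g ∈ L, ∀ i ∈ L, f a < f b → f b + f c = f e + f a →
    f b + f g = f i + f a → Rl G L f (f b - f a) ∨ a = c ∨ a = g ∨ c = g

variable {G k OK}

lemma add1 (R1 : ∀ a b, a ≠ b → ¬ G.Adj a b → OK a b a b)
    (sy : ∀ a b c e, OK a b c e → OK c e a b)
    {L : Finset V} {f : V → ℕ} (h : Good G k OK L f) {z : V} (hz : z ∉ L) {y : ℕ}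
    (h0 : ∀ m ∈ L, f m < y)
    (h1 : ∀ m ∈ L, G.Adj m z → f m + k ≤ y ∧ ¬ Rl G L f (y - f m))
    (h2 : ∀ m ∈ L, ∀ b ∈ L, ∀ e ∈ L, f b < f e → y + f b = f e + f m →
      G.Adj m z ∨ G.Adj b e ∨ OK m z b e)
    (h3 : ∀ m ∈ L, ∀ b ∈ L, ∀ e ∈ L, ∀ c ∈ L, ∀ g ∈ L, y + f b = f e + f m → y + f c = f g + f m →
      G.Adj m z ∨ b = c) :
    Good G k OK (insert z L) (Function.update f z y) := by
  have fz : Function.update f z y z = y := Function.update_self _ _ _
  have fo : ∀ a ∈ L, Function.update f z y a = f a := fun a ha =>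
    Function.update_of_ne (ne_of_mem_of_not_mem ha hz) _ _
  have rl : ∀ a ∈ insert z L, ∀ b ∈ insert z L, G.Adj a b →
      Function.update f z y a < Function.update f z y b →
      Rl G (insert z L) (Function.update f z y) (Function.update f z y b - Function.update f z y a) :=
    fun a ha b hb hab hlt => ⟨a, ha, b, hb, hab, by omega⟩
  have mz : z ∈ insert z L := Finset.mem_insert_self _ _
  have mo : ∀ a ∈ L, a ∈ insert z L := fun a ha => Finset.mem_insert_of_mem ha
  refine ⟨?_, ?_, ?_, ?_, ?_⟩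
  · intro a ha b hb e
    rw [Finset.mem_insert] at ha hb
    rcases ha with rfl | ha <;> rcases hb with rfl | hb
    · rfl
    · rw [fz, fo b hb] at e; have := h0 b hb; omega
    · rw [fz, fo a ha] at e; have := h0 a ha; omega
    · rw [fo a ha, fo b hb] at e; exact h.inj a ha b hb e
  · intro a ha b hb e
    rw [Finset.mem_insert] at ha hb
    rcases ha with rfl | ha <;> rcases hb with rfl | hb
    · exact absurd rfl e.ne
    · rw [fz, fo b hb]; exact Or.inr (h1 b hb e.symm).1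
    · rw [fz, fo a ha]; exact Or.inl (h1 a ha e).1
    · rw [fo a ha, fo b hb]; exact h.ge a ha b hb e
  · intro a ha b hb c hc e he hab hce l1 l2 q
    have lo : ∀ a ∈ insert z L, ∀ b ∈ insert z L, Function.update f z y a < Function.update f z y b →
        a ∈ L := by
      intro a ha b hb l
      rcases Finset.mem_insert.1 ha with rfl | ha
      · rcases Finset.mem_insert.1 hb with rfl | hb
        · omega
        · rw [fz, fo b hb] at l; have := h0 b hb; omega
      · exact ha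
    have ha' := lo a ha b hb l1
    have hc' := lo c hc e he l2
    rw [fo a ha'] at l1 q
    rw [fo c hc'] at l2 q
    rw [Finset.mem_insert] at hb he
    rcases hb with rfl | hb <;> rcases he with rfl | he
    · exact ⟨h.inj a ha' c hc' (by omega), rfl⟩
    · rw [fz] at l1 q; rw [fo e he] at l2 q
      exact absurd ⟨c, hc', e, he, hce, by omega⟩ (h1 a ha' hab).2
    · rw [fz] at l2 q; rw [fo b hb] at l1 q
      exact absurd ⟨a, ha', b, hb, hab, by omega⟩ (h1 c hc' hce).2
    · rw [fo b hb] at l1 q; rw [fo e he] at l2 q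
      exact h.dis a ha' b hb c hc' e he hab hce l1 l2 q
  · intro a ha b hb c hc e he l1 l2 q
    have lo : ∀ a ∈ insert z L, ∀ b ∈ insert z L, Function.update f z y a < Function.update f z y b →
        a ∈ L := by
      intro a ha b hb l
      rcases Finset.mem_insert.1 ha with rfl | ha
      · rcases Finset.mem_insert.1 hb with rfl | hb
        · omega
        · rw [fz, fo b hb] at l; have := h0 b hb; omega
      · exact ha
    have ha' := lo a ha b hb l1
    have hc' := lo c hc e he l2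
    by_cases ab : G.Adj a b
    · exact Or.inl (rl a ha b hb ab l1)
    by_cases ce : G.Adj c e
    · left
      have := rl c hc e he ce l2
      rwa [show Function.update f z y e - Function.update f z y c =
        Function.update f z y b - Function.update f z y a by omega] at this
    rw [fo a ha'] at l1 q ⊢
    rw [fo c hc'] at l2 q
    rw [Finset.mem_insert] at hb he
    rcases hb with rfl | hb <;> rcases he with rfl | he
    · obtain rfl : a = c := h.inj a ha' c hc' (by omega)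
      exact Or.inr (R1 _ _ (fun e => hz (e ▸ ha')) ab)
    · rw [fz] at l1 q; rw [fo e he] at l2 q
      rcases h2 a ha' c hc' e he l2 q with t | t | t
      · exact absurd t ab
      · exact absurd t ce
      · exact Or.inr t
    · rw [fz] at l2 q; rw [fo b hb] at l1 q
      rcases h2 c hc' a ha' b hb l1 q.symm with t | t | t
      · exact absurd t ce
      · exact absurd t ab
      · exact Or.inr (sy _ _ _ _ t)
    · rw [fo b hb] at l1 q ⊢; rw [fo e he] at l2 q
      rcases h.ok a ha' b hb c hc' e he l1 l2 q with ⟨u, hu, v, hv, t1, t2⟩ | t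
      · exact Or.inl ⟨u, mo u hu, v, mo v hv, t1, by rw [fo u hu, fo v hv]; exact t2⟩
      · exact Or.inr t
  · intro a ha b hb c hc e he g hg i hi l1 q1 q2
    have lo : ∀ a ∈ insert z L, ∀ b ∈ insert z L, Function.update f z y a < Function.update f z y b →
        a ∈ L := by
      intro a ha b hb l
      rcases Finset.mem_insert.1 ha with rfl | ha
      · rcases Finset.mem_insert.1 hb with rfl | hb
        · omega
        · rw [fz, fo b hb] at l; have := h0 b hb; omega
      · exact ha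
    have ha' := lo a ha b hb l1
    have hc' := lo c hc e he (by omega)
    have hg' := lo g hg i hi (by omega)
    by_cases ab : G.Adj a b
    · exact Or.inl (rl a ha b hb ab l1)
    by_cases ce : G.Adj c e
    · left
      have := rl c hc e he ce (by omega)
      rwa [show Function.update f z y e - Function.update f z y c =
        Function.update f z y b - Function.update f z y a by omega] at this
    by_cases gi : G.Adj g i
    · left
      have := rl g hg i hi gi (by omega)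
      rwa [show Function.update f z y i - Function.update f z y g =
        Function.update f z y b - Function.update f z y a by omega] at this
    rw [fo a ha'] at l1 q1 q2 ⊢
    rw [fo c hc'] at q1
    rw [fo g hg'] at q2
    rw [Finset.mem_insert] at hb he hi
    by_cases b1 : b = z <;> by_cases b2 : e = z <;> by_cases b3 : i = z
    · rw [b1, b2] at q1; exact Or.inr (Or.inl (h.inj a ha' c hc' (by omega)))
    · rw [b1, b2] at q1; exact Or.inr (Or.inl (h.inj a ha' c hc' (by omega)))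
    · rw [b1, b3] at q2; exact Or.inr (Or.inr (Or.inl (h.inj a ha' g hg' (by omega))))
    · have he' := he.resolve_left b2
      have hi' := hi.resolve_left b3
      rw [b1, fz, fo e he'] at q1; rw [b1, fz, fo i hi'] at q2
      rcases h3 a ha' c hc' e he' g hg' i hi' q1 q2 with t | t
      · exact absurd (b1 ▸ t) ab
      · exact Or.inr (Or.inr (Or.inr t))
    · rw [b2] at q1; rw [b3] at q2
      exact Or.inr (Or.inr (Or.inr (h.inj c hc' g hg' (by omega))))
    · have hb' := hb.resolve_left b1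
      have hi' := hi.resolve_left b3
      rw [b2, fz, fo b hb'] at q1; rw [fo b hb', fo i hi'] at q2
      rcases h3 c hc' a ha' b hb' g hg' i hi' (by omega) (by omega) with t | t
      · exact absurd (b2 ▸ t) ce
      · exact Or.inr (Or.inr (Or.inl t))
    · have hb' := hb.resolve_left b1
      have he' := he.resolve_left b2
      rw [b3, fz, fo b hb'] at q2; rw [fo b hb', fo e he'] at q1
      rcases h3 g hg' a ha' b hb' c hc' e he' (by omega) (by omega) with t | t
      · exact absurd (b3 ▸ t) gi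
      · exact Or.inr (Or.inl t)
    · have hb' := hb.resolve_left b1
      have he' := he.resolve_left b2
      have hi' := hi.resolve_left b3
      rw [fo b hb'] at l1 q1 q2 ⊢; rw [fo e he'] at q1; rw [fo i hi'] at q2
      rcases h.two a ha' b hb' c hc' e he' g hg' i hi' l1 q1 q2 with ⟨u, hu, v, hv, t1, t2⟩ | t
      · exact Or.inl ⟨u, mo u hu, v, mo v hv, t1, by rw [fo u hu, fo v hv]; exact t2⟩
      · exact Or.inr t

def Fresh (G : SimpleGraph V) (OK : V → V → V → V → Prop) : Prop :=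
  ∀ (L : Finset V) (P : V → V → Prop),
    (∀ a x, P a x → a ∈ L ∧ x ∈ L ∧ a ≠ x ∧ ¬ G.Adj a x) →
    (∀ a x b y, P a x → P b y → OK a x b y) →
    (∀ a x b y c z, P a x → P b y → P c z →
      (a = b ∧ x = y) ∨ (a = c ∧ x = z) ∨ (b = c ∧ y = z)) →
    ∃ p q, p ∉ L ∧ q ∉ L ∧ G.Adj p q ∧ ∀ a x, P a x →
      ¬ (G.Adj a p ∧ G.Adj x q) ∧ (G.Adj a p ∨ G.Adj x q ∨ OK a p x q)

lemma addv (R1 : ∀ a b, a ≠ b → ¬ G.Adj a b → OK a b a b)
    (sy : ∀ a b c e, OK a b c e → OK c e a b)
    {L : Finset V} {f : V → ℕ} (h : Good G k OK L f) {z : V} (hz : z ∉ L) (N : ℕ) :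
    Good G k OK (insert z L) (Function.update f z (2 * L.sup f + k + 1 + N)) := by
  have hb : ∀ m ∈ L, f m ≤ L.sup f := fun m hm => Finset.le_sup hm
  refine add1 R1 sy h hz (fun m hm => by have := hb m hm; omega) (fun m hm _ => ?_)
    (fun m hm b _ e he l q => ?_) (fun m hm b _ e he _ _ _ _ q _ => ?_)
  · have := hb m hm
    refine ⟨by omega, ?_⟩
    rintro ⟨c, _, e, he, _, t⟩
    have := hb e he; omega
  · have := hb m hm; have := hb e he; omega
  · have := hb m hm; have := hb e he; omega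

lemma adde (hk : 1 ≤ k) (R1 : ∀ a b, a ≠ b → ¬ G.Adj a b → OK a b a b)
    (sy : ∀ a b c e, OK a b c e → OK c e a b) (R2 : Fresh G OK)
    {L : Finset V} {f : V → ℕ} (h : Good G k OK L f) {d : ℕ} (hd : k ≤ d) :
    ∃ L' f', Good G k OK L' f' ∧ L ⊆ L' ∧ (∀ a ∈ L, f' a = f a) ∧ Rl G L' f' d := by
  by_cases r : Rl G L f d
  · exact ⟨L, f, h, subset_rfl, fun _ _ => rfl, r⟩
  obtain ⟨p, q, hp, hq, hpq, H⟩ := R2 L (fun a x => a ∈ L ∧ x ∈ L ∧ f a + d = f x)
    (fun a x ⟨h1, h2, h3⟩ => ⟨h1, h2, fun e => by subst e; omega, fun t => r ⟨a, h1, x, h2, t, h3⟩⟩)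
    (fun a x b y ⟨h1, h2, h3⟩ ⟨h4, h5, h6⟩ => by
      rcases h.ok a h1 x h2 b h4 y h5 (by omega) (by omega) (by omega) with t | t
      · rw [show f x - f a = d by omega] at t; exact absurd t r
      · exact t)
    (fun a x b y c z ⟨h1, h2, h3⟩ ⟨h4, h5, h6⟩ ⟨h7, h8, h9⟩ => by
      rcases h.two a h1 x h2 b h4 y h5 c h7 z h8 (by omega) (by omega) (by omega) with t | t | t | t
      · rw [show f x - f a = d by omega] at t; exact absurd t r
      · subst t; exact Or.inl ⟨rfl, h.inj _ h2 _ h5 (by omega)⟩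
      · subst t; exact Or.inr (Or.inl ⟨rfl, h.inj _ h2 _ h8 (by omega)⟩)
      · subst t; exact Or.inr (Or.inr ⟨rfl, h.inj _ h5 _ h8 (by omega)⟩))
  have hb : ∀ m ∈ L, f m ≤ L.sup f := fun m hm => Finset.le_sup hm
  have g1 := addv R1 sy h hp d
  obtain ⟨y, hy⟩ : ∃ y, y = 2 * L.sup f + k + 1 + d := ⟨_, rfl⟩
  rw [← hy] at g1
  have fz : Function.update f p y p = y := Function.update_self _ _ _
  have fo : ∀ a ∈ L, Function.update f p y a = f a := fun a ha =>
    Function.update_of_ne (ne_of_mem_of_not_mem ha hp) _ _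
  have hq' : q ∉ insert p L := by
    rw [Finset.mem_insert]; rintro (e | e)
    · exact hpq.ne e.symm
    · exact hq e
  have g2 := add1 R1 sy g1 hq' (y := y + d) ?_ ?_ ?_ ?_
  · refine ⟨_, _, g2, fun a ha => Finset.mem_insert_of_mem (Finset.mem_insert_of_mem ha),
      fun a ha => ?_, p, by simp, q, by simp, hpq, ?_⟩
    · rw [Function.update_of_ne (ne_of_mem_of_not_mem ha hq), fo a ha]
    · rw [Function.update_of_ne hpq.ne, fz, Function.update_self]
  · intro m hm
    rw [Finset.mem_insert] at hm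
    rcases hm with rfl | hm
    · rw [fz]; omega
    · rw [fo m hm]; have := hb m hm; omega
  · intro m hm hmq
    rw [Finset.mem_insert] at hm
    rcases hm with rfl | hm
    · rw [fz]
      refine ⟨by omega, ?_⟩
      rintro ⟨c, hc, e, he, t1, t2⟩
      rw [Finset.mem_insert] at hc he
      rcases hc with rfl | hc <;> rcases he with rfl | he
      · exact t1.ne rfl
      · rw [fz, fo e he] at t2; have := hb e he; omega
      · rw [fz, fo c hc] at t2; have := hb c hc; omega
      · rw [fo c hc, fo e he] at t2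
        exact r ⟨c, hc, e, he, t1, by omega⟩
    · rw [fo m hm]
      have := hb m hm
      refine ⟨by omega, ?_⟩
      rintro ⟨c, hc, e, he, t1, t2⟩
      rw [Finset.mem_insert] at hc he
      rcases hc with rfl | hc <;> rcases he with rfl | he
      · exact t1.ne rfl
      · rw [fz, fo e he] at t2; have := hb e he; omega
      · rw [fz, fo c hc] at t2
        exact (H c m ⟨hc, hm, by omega⟩).1 ⟨t1, hmq⟩
      · rw [fo c hc, fo e he] at t2; have := hb e he; omega
  · intro m hm b hb' e he l t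
    rw [Finset.mem_insert] at hm
    rcases hm with rfl | hm
    · exact Or.inl hpq
    rw [fo m hm] at t
    have := hb m hm
    rw [Finset.mem_insert] at hb' he
    rcases hb' with rfl | hb' <;> rcases he with rfl | he
    · omega
    · rw [fz, fo e he] at l; have := hb e he; omega
    · rw [fz, fo b hb'] at t
      rcases (H b m ⟨hb', hm, by omega⟩).2 with w | w | w
      · exact Or.inr (Or.inl w)
      · exact Or.inl w
      · exact Or.inr (Or.inr (sy _ _ _ _ w))
    · rw [fo b hb', fo e he] at t; have := hb e he; omega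
  · intro m hm b hb' e he c hc g hg t1 t2
    rw [Finset.mem_insert] at hm
    rcases hm with rfl | hm
    · exact Or.inl hpq
    rw [fo m hm] at t1 t2
    have := hb m hm
    have top : ∀ e ∈ insert p L, ∀ n, y + d + n = Function.update f p y e + f m →
        Function.update f p y e = y := by
      intro e he n t
      rw [Finset.mem_insert] at he
      rcases he with rfl | he
      · exact fz
      · rw [fo e he] at t; have := hb e he; omega
    have e1 := top e he _ t1
    have e2 := top g hg _ t2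
    exact Or.inr (g1.inj b hb' c hc (by omega))

lemma greedy [Countable V] [Nonempty V] (hk : 1 ≤ k) (R1 : ∀ a b, a ≠ b → ¬ G.Adj a b → OK a b a b)
    (sy : ∀ a b c e, OK a b c e → OK c e a b) (R2 : Fresh G OK) : KGraceful G k := by
  obtain ⟨en, hen⟩ := exists_surjective_nat V
  have step : ∀ (n : ℕ) (s : {s : Finset V × (V → ℕ) // Good G k OK s.1 s.2}),
      ∃ s' : {s : Finset V × (V → ℕ) // Good G k OK s.1 s.2}, s.1.1 ⊆ s'.1.1 ∧
        (∀ a ∈ s.1.1, s'.1.2 a = s.1.2 a) ∧ en n ∈ s'.1.1 ∧ Rl G s'.1.1 s'.1.2 (k + n) := by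
    rintro n ⟨⟨L, f⟩, h⟩
    have : ∃ L1 f1, Good G k OK L1 f1 ∧ L ⊆ L1 ∧ (∀ a ∈ L, f1 a = f a) ∧ en n ∈ L1 := by
      by_cases c : en n ∈ L
      · exact ⟨L, f, h, subset_rfl, fun _ _ => rfl, c⟩
      · exact ⟨_, _, addv R1 sy h c 0, Finset.subset_insert _ _,
          fun a ha => Function.update_of_ne (ne_of_mem_of_not_mem ha c) _ _, Finset.mem_insert_self _ _⟩
    obtain ⟨L1, f1, g1, s1, e1, m1⟩ := this
    obtain ⟨L2, f2, g2, s2, e2, m2⟩ := adde hk R1 sy R2 g1 (Nat.le_add_right k n)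
    exact ⟨⟨(L2, f2), g2⟩, s1.trans s2, fun a ha => (e2 a (s1 ha)).trans (e1 a ha), s2 m1, m2⟩
  choose nx hnx using step
  let S : ℕ → {s : Finset V × (V → ℕ) // Good G k OK s.1 s.2} := fun n =>
    Nat.rec ⟨(∅, fun _ => 0), ⟨by simp, by simp, by simp, by simp, by simp⟩⟩ (fun n s => nx n s) n
  have hS : ∀ n, S (n + 1) = nx n (S n) := fun n => rfl
  have mono : ∀ n m, n ≤ m → (S n).1.1 ⊆ (S m).1.1 ∧ ∀ a ∈ (S n).1.1, (S m).1.2 a = (S n).1.2 a := by
    intro n m hnm
    induction m, hnm using Nat.le_induction with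
    | base => exact ⟨subset_rfl, fun _ _ => rfl⟩
    | succ m _ ih =>
      rw [hS]
      exact ⟨ih.1.trans (hnx m (S m)).1, fun a ha => ((hnx m (S m)).2.1 a (ih.1 ha)).trans (ih.2 a ha)⟩
  choose ix hix using hen
  have mem : ∀ v, v ∈ (S (ix v + 1)).1.1 := fun v => by
    have := (hnx (ix v) (S (ix v))).2.2.1
    rwa [hix] at this
  let F : V → ℕ := fun v => (S (ix v + 1)).1.2 v
  have ag : ∀ n, ∀ v ∈ (S n).1.1, F v = (S n).1.2 v := by
    intro n v hv
    rcases le_total n (ix v + 1) with c | c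
    · exact (mono _ _ c).2 v hv
    · exact ((mono _ _ c).2 v (mem v)).symm
  have four : ∀ a b c e : V, ∃ n, a ∈ (S n).1.1 ∧ b ∈ (S n).1.1 ∧ c ∈ (S n).1.1 ∧ e ∈ (S n).1.1 :=
    fun a b c e => ⟨ix a + ix b + ix c + ix e + 1, (mono (ix a + 1) (ix a + ix b + ix c + ix e + 1) (by omega)).1 (mem a),
      (mono (ix b + 1) (ix a + ix b + ix c + ix e + 1) (by omega)).1 (mem b), (mono (ix c + 1) (ix a + ix b + ix c + ix e + 1) (by omega)).1 (mem c),
      (mono (ix e + 1) (ix a + ix b + ix c + ix e + 1) (by omega)).1 (mem e)⟩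
  have ge : ∀ a b, G.Adj a b → F a + k ≤ F b ∨ F b + k ≤ F a := by
    intro a b hab
    obtain ⟨n, ha, hb, _, _⟩ := four a b a b
    rw [ag n a ha, ag n b hb]
    exact (S n).2.ge a ha b hb hab
  have dis : ∀ a b c e, G.Adj a b → G.Adj c e → F a < F b → F c < F e → F b + F c = F e + F a →
      a = c ∧ b = e := by
    intro a b c e hab hce
    obtain ⟨n, ha, hb, hc, he⟩ := four a b c e
    rw [ag n a ha, ag n b hb, ag n c hc, ag n e he]
    exact (S n).2.dis a ha b hb c hc e he hab hce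
  refine ⟨F, fun a b e => ?_, ?_, ?_, ?_⟩
  · obtain ⟨n, ha, hb, _, _⟩ := four a b a b
    rw [ag n a ha, ag n b hb] at e
    exact (S n).2.inj a ha b hb e
  · intro e he
    induction e using Sym2.ind with
    | _ a b =>
      have := ge a b he
      show k ≤ Nat.dist (F a) (F b)
      unfold Nat.dist; omega
  · intro e he e' he' q
    induction e using Sym2.ind with
    | _ a b =>
      induction e' using Sym2.ind with
      | _ c e =>
        have h1 := ge a b he
        have h2 := ge c e he'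
        have q' : Nat.dist (F a) (F b) = Nat.dist (F c) (F e) := q
        unfold Nat.dist at q'
        have hab : G.Adj a b := he
        have hce : G.Adj c e := he'
        rw [Sym2.eq_iff]
        rcases h1 with h1 | h1 <;> rcases h2 with h2 | h2
        · exact Or.inl (dis a b c e hab hce (by omega) (by omega) (by omega))
        · exact Or.inr (dis a b e c hab hce.symm (by omega) (by omega) (by omega))
        · exact Or.inr (dis b a c e hab.symm hce (by omega) (by omega) (by omega)).symm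
        · exact Or.inl (dis b a e c hab.symm hce.symm (by omega) (by omega) (by omega)).symm
  · intro d hd
    obtain ⟨n, rfl⟩ := Nat.exists_eq_add_of_le (show k ≤ d from hd)
    obtain ⟨c, hc, e, he, t1, t2⟩ := (hnx n (S n)).2.2.2
    refine ⟨s(c, e), t1, ?_⟩
    show Nat.dist (F c) (F e) = k + n
    rw [ag (n + 1) c hc, ag (n + 1) e he, hS]
    unfold Nat.dist; omega

end greedy

section lim
variable {V : Type} [DecidableEq V] (G : SimpleGraph V)

def Lm (u : ℕ → V) (w : V) : Prop := ∀ᶠ n in (hyperfilter ℕ : Filter ℕ), G.Adj w (u n)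

lemma gen {u : ℕ → V} (hu : Function.Injective u) (L : Finset V) :
    ∀ᶠ n in (hyperfilter ℕ : Filter ℕ), u n ∉ L ∧ ∀ m ∈ L, (G.Adj m (u n) ↔ Lm G u m) := by
  refine Eventually.and ?_ ?_
  · apply hyperfilter_le_cofinite
    rw [mem_cofinite]
    exact ((L.finite_toSet.preimage hu.injOn).subset (fun n hn => by simpa using hn))
  · rw [eventually_all_finset]
    intro m _
    by_cases c : Lm G u m
    · exact Eventually.mono c (fun n hn => ⟨fun _ => c, fun _ => hn⟩)
    · exact (Ultrafilter.eventually_not.2 c).mono (fun n hn => ⟨fun t => absurd t hn, fun t => absurd t c⟩)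

def Sys (OK : V → V → V → V → Prop) : Prop :=
  (∀ a b c e, OK a b c e → OK c e a b) ∧ ∀ (L : Finset V) (P : V → V → Prop),
    (∀ a x, P a x → a ∈ L ∧ x ∈ L) → (∀ a x b y, P a x → P b y → OK a x b y) →
    ∃ p q, p ∉ L ∧ q ∉ L ∧ G.Adj p q ∧ ∀ a x, P a x →
      ¬ (G.Adj a p ∧ G.Adj x q) ∧
        (G.Adj a p ∨ G.Adj x q ∨ (OK a p x q ∧ OK a p a p ∧ OK x q x q))

lemma caseA {u v : ℕ → V} (hu : Function.Injective u)
    (hv : Function.Injective v) (huv : ∀ n, G.Adj (u n) (v n))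
    (hA : ¬ ∀ᶠ n in (hyperfilter ℕ : Filter ℕ), Lm G u (u n)) :
    Sys G (fun a x b y => ¬ ((Lm G u a ∧ Lm G v x) ∧ (Lm G v b ∧ Lm G u y)) ∧
      ¬ ((Lm G v a ∧ Lm G u x) ∧ (Lm G u b ∧ Lm G v y))) := by
  refine ⟨fun a b c e h => by tauto, ?_⟩
  intro L P hP hO
  obtain ⟨n, ⟨h1, h2⟩, ⟨h3, h4⟩, h5⟩ :=
    ((gen G hu L).and ((gen G hv L).and (Ultrafilter.eventually_not.2 hA))).exists
  by_cases c : ∃ a x, P a x ∧ Lm G u a ∧ Lm G v x
  · obtain ⟨b, y, hb, c⟩ := c
    refine ⟨v n, u n, h3, h1, (huv n).symm, fun a x ha => ?_⟩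
    have := hO b y a x hb ha
    rw [h4 a (hP a x ha).1, h2 x (hP a x ha).2]
    tauto
  · refine ⟨u n, v n, h1, h3, huv n, fun a x ha => ?_⟩
    have : ¬ (Lm G u a ∧ Lm G v x) := fun t => c ⟨a, x, ha, t⟩
    rw [h2 a (hP a x ha).1, h4 x (hP a x ha).2]
    tauto

lemma same {u : ℕ → V} (hu : Function.Injective u)
    (hA : ∀ᶠ n in (hyperfilter ℕ : Filter ℕ), Lm G u (u n)) (L : Finset V) :
    ∃ p q, p ∉ L ∧ q ∉ L ∧ G.Adj p q ∧ ∀ m ∈ L, (G.Adj m p ↔ Lm G u m) ∧ (G.Adj m q ↔ Lm G u m) := by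
  obtain ⟨n, ⟨h1, h2⟩, h3⟩ := ((gen G hu L).and hA).exists
  obtain ⟨j, ⟨h4, h5⟩, h6⟩ := ((gen G hu L).and h3).exists
  exact ⟨u n, u j, h1, h4, h6, fun m hm => ⟨h2 m hm, h5 m hm⟩⟩

lemma caseB {u v : ℕ → V} (hu : Function.Injective u)
    (hv : Function.Injective v) (huv : ∀ n, G.Adj (u n) (v n))
    (hA : ∀ᶠ n in (hyperfilter ℕ : Filter ℕ), Lm G u (u n))
    (hB : ∀ᶠ n in (hyperfilter ℕ : Filter ℕ), Lm G v (v n)) :
    Sys G (fun a x b y => ¬ (Lm G u a ∧ Lm G v a ∧ Lm G u x ∧ Lm G v x) ∧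
      ¬ (Lm G u b ∧ Lm G v b ∧ Lm G u y ∧ Lm G v y) ∧ ((a = b ∧ x = y) ∨
      (¬ Lm G u a ∧ ¬ Lm G v a) ∨ (¬ Lm G u x ∧ ¬ Lm G v x) ∨ (¬ Lm G u b ∧ ¬ Lm G v b) ∨
      (¬ Lm G u y ∧ ¬ Lm G v y))) := by
  let Z : V → Prop := fun a => ¬ Lm G u a ∧ ¬ Lm G v a
  refine ⟨fun a b c e h => ⟨h.2.1, h.1, ?_⟩, ?_⟩
  · rcases h.2.2 with ⟨rfl, rfl⟩ | t | t | t | t
    · exact Or.inl ⟨rfl, rfl⟩
    · exact Or.inr (Or.inr (Or.inr (Or.inl t)))
    · exact Or.inr (Or.inr (Or.inr (Or.inr t)))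
    · exact Or.inr (Or.inl t)
    · exact Or.inr (Or.inr (Or.inl t))
  intro L P hP hO
  have av : ∀ S T : V → Prop, (S = Lm G u ∨ S = Lm G v) → (T = Lm G u ∨ T = Lm G v) →
      ∃ p q, p ∉ L ∧ q ∉ L ∧ G.Adj p q ∧ ∀ m ∈ L, (G.Adj m p ↔ S m) ∧ (G.Adj m q ↔ T m) := by
    obtain ⟨n, ⟨h1, h2⟩, h3, h4⟩ := ((gen G hu L).and (gen G hv L)).exists
    rintro S T (rfl | rfl) (rfl | rfl)
    · exact same G hu hA L
    · exact ⟨u n, v n, h1, h3, huv n, fun m hm => ⟨h2 m hm, h4 m hm⟩⟩
    · exact ⟨v n, u n, h3, h1, (huv n).symm, fun m hm => ⟨h4 m hm, h2 m hm⟩⟩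
    · exact same G hv hB L
  have ch : ∃ S T : V → Prop, (S = Lm G u ∨ S = Lm G v) ∧ (T = Lm G u ∨ T = Lm G v) ∧
      ∀ a x, P a x → Z a ∨ Z x ∨ (S a ↔ ¬ T x) := by
    by_cases c : ∃ b y, P b y ∧ ¬ Z b ∧ ¬ Z y
    · obtain ⟨b, y, hb, z1, z2⟩ := c
      have n1 := (hO b y b y hb hb).1
      have red : ∀ S T : V → Prop, (S b ↔ ¬ T y) → ∀ a x, P a x → Z a ∨ Z x ∨ (S a ↔ ¬ T x) := by
        intro S T h a x ha
        rcases (hO b y a x hb ha).2.2 with ⟨rfl, rfl⟩ | t | t | t | t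
        · exact Or.inr (Or.inr h)
        · exact absurd t z1
        · exact absurd t z2
        · exact Or.inl t
        · exact Or.inr (Or.inl t)
      by_cases d1 : Lm G u b ↔ ¬ Lm G u y
      · exact ⟨_, _, Or.inl rfl, Or.inl rfl, red _ _ d1⟩
      by_cases d2 : Lm G u b ↔ ¬ Lm G v y
      · exact ⟨_, _, Or.inl rfl, Or.inr rfl, red _ _ d2⟩
      by_cases d3 : Lm G v b ↔ ¬ Lm G u y
      · exact ⟨_, _, Or.inr rfl, Or.inl rfl, red _ _ d3⟩
      · exfalso; simp only [Z] at z1 z2; tauto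
    · exact ⟨_, _, Or.inl rfl, Or.inl rfl, fun a x ha => by
        by_contra t; exact c ⟨a, x, ha, by tauto, by tauto⟩⟩
  obtain ⟨S, T, hS, hT, H⟩ := ch
  obtain ⟨p, q, h1, h2, h3, h4⟩ := av S T hS hT
  refine ⟨p, q, h1, h2, h3, fun a x ha => ?_⟩
  rw [(h4 a (hP a x ha).1).1, (h4 x (hP a x ha).2).2]
  have s1 : Z a → ¬ S a := by rcases hS with rfl | rfl <;> exact fun t => by simp only [Z] at t; tauto
  have s2 : Z x → ¬ T x := by rcases hT with rfl | rfl <;> exact fun t => by simp only [Z] at t; tauto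
  have s3 : Lm G u a → Lm G v a → S a := by rcases hS with rfl | rfl <;> tauto
  have s4 : Lm G u x → Lm G v x → T x := by rcases hT with rfl | rfl <;> tauto
  have s5 := H a x ha
  refine ⟨by tauto, ?_⟩
  by_cases c1 : S a
  · exact Or.inl c1
  by_cases c2 : T x
  · exact Or.inr (Or.inl c2)
  have n1 : ¬ (Lm G u a ∧ Lm G v a ∧ Lm G u p ∧ Lm G v p) := fun t => c1 (s3 t.1 t.2.1)
  have n2 : ¬ (Lm G u x ∧ Lm G v x ∧ Lm G u q ∧ Lm G v q) := fun t => c2 (s4 t.1 t.2.1)
  refine Or.inr (Or.inr ⟨⟨n1, n2, ?_⟩, ⟨n1, n1, Or.inl ⟨rfl, rfl⟩⟩, ⟨n2, n2, Or.inl ⟨rfl, rfl⟩⟩⟩)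
  rcases s5 with t | t | t
  · exact Or.inr (Or.inl t)
  · exact Or.inr (Or.inr (Or.inr (Or.inl t)))
  · exact absurd (t.2 c2) c1

lemma sys {u v : ℕ → V} (hu : Function.Injective u) (hv : Function.Injective v)
    (huv : ∀ n, G.Adj (u n) (v n)) : ∃ OK, Sys G OK ∧
      ∀ a x, ¬ (Lm G u a ∧ Lm G v a ∧ Lm G u x ∧ Lm G v x) → OK a x a x := by
  by_cases hA : ∀ᶠ n in (hyperfilter ℕ : Filter ℕ), Lm G u (u n)
  · by_cases hB : ∀ᶠ n in (hyperfilter ℕ : Filter ℕ), Lm G v (v n)
    · exact ⟨_, caseB G hu hv huv hA hB, fun a x h => ⟨h, h, Or.inl ⟨rfl, rfl⟩⟩⟩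
    · exact ⟨_, caseA G hv hu (fun n => (huv n).symm) hB, fun a x h => by tauto⟩
  · exact ⟨_, caseA G hu hv huv hA, fun a x h => by tauto⟩

end lim

/-- `G` has infinitely many edges `u n v n` (with `u`, `v` injective) satisfying `Q`. -/
def InfMatch {V : Type} (G : SimpleGraph V) (Q : V → V → Prop) : Prop :=
  ∃ u v : ℕ → V, Function.Injective u ∧ Function.Injective v ∧
    ∀ n, G.Adj (u n) (v n) ∧ Q (u n) (v n)

theorem result {V : Type} [Countable V] (G : SimpleGraph V)
    (hm : InfMatch G (fun _ _ => True))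
    (hs : ∀ a x, a ≠ x → ¬ G.Adj a x →
      InfMatch G (fun p q => ¬ (G.Adj a p ∧ G.Adj a q ∧ G.Adj x p ∧ G.Adj x q)))
    (k : ℕ) (hk : 1 ≤ k) : KGraceful G k := by
  classical
  obtain ⟨u0, v0, hu0, hv0, h0⟩ := hm
  have : Nonempty V := ⟨u0 0⟩
  refine greedy (OK := fun a x b y => ∃ OK, Sys G OK ∧ OK a x b y ∧ OK a x a x ∧ OK b y b y)
    hk ?_ ?_ ?_
  · intro a x h1 h2
    obtain ⟨u, v, hu, hv, h⟩ := hs a x h1 h2
    obtain ⟨OK, s, t⟩ := sys G hu hv (fun n => (h n).1)
    have := t a x (fun ⟨t1, t2, t3, t4⟩ => by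
      obtain ⟨n, hn⟩ := (t1.and (t2.and (t3.and t4))).exists
      exact (h n).2 hn)
    exact ⟨OK, s, this, this, this⟩
  · rintro a b c e ⟨OK, s, t1, t2, t3⟩
    exact ⟨OK, s, s.1 _ _ _ _ t1, t3, t2⟩
  · intro L P hP hO h3
    have : ∃ OK, Sys G OK ∧ ∀ a x b y, P a x → P b y → OK a x b y := by
      by_cases c : ∃ a x b y, P a x ∧ P b y ∧ ¬ (a = b ∧ x = y)
      · obtain ⟨a, x, b, y, p1, p2, ne⟩ := c
        obtain ⟨OK, s, t1, t2, t3⟩ := hO a x b y p1 p2
        have two : ∀ c z, P c z → (a = c ∧ x = z) ∨ (b = c ∧ y = z) :=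
          fun c z p3 => (h3 a x b y c z p1 p2 p3).resolve_left ne
        refine ⟨OK, s, fun c z e w p3 p4 => ?_⟩
        rcases two c z p3 with ⟨rfl, rfl⟩ | ⟨rfl, rfl⟩ <;>
          rcases two e w p4 with ⟨rfl, rfl⟩ | ⟨rfl, rfl⟩
        · exact t2
        · exact t1
        · exact s.1 _ _ _ _ t1
        · exact t3
      · by_cases c1 : ∃ a x, P a x
        · obtain ⟨a, x, p1⟩ := c1
          obtain ⟨OK, s, t1, _, _⟩ := hO a x a x p1 p1
          have one : ∀ c z, P c z → a = c ∧ x = z := fun c' z p3 => by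
            by_contra t; exact c ⟨a, x, c', z, p1, p3, t⟩
          refine ⟨OK, s, fun c z e w p3 p4 => ?_⟩
          obtain ⟨rfl, rfl⟩ := one c z p3
          obtain ⟨rfl, rfl⟩ := one e w p4
          exact t1
        · obtain ⟨OK, s, _⟩ := sys G hu0 hv0 (fun n => (h0 n).1)
          exact ⟨OK, s, fun a x _ _ p1 _ => absurd ⟨a, x, p1⟩ c1⟩
    obtain ⟨OK, s, t⟩ := this
    obtain ⟨p, q, h1, h2, h4, h5⟩ := s.2 L P (fun a x h => ⟨(hP a x h).1, (hP a x h).2.1⟩) t
    refine ⟨p, q, h1, h2, h4, fun a x h => ⟨(h5 a x h).1, ?_⟩⟩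
    rcases (h5 a x h).2 with w | w | w
    · exact Or.inl w
    · exact Or.inr (Or.inl w)
    · exact Or.inr (Or.inr ⟨OK, s, w⟩)

end Pool.Agent.Results.MP_7616b3_co.Main
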